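import Pool.Agent.H983R2.GC.Defs

set_option autoImplicit false

namespace Pool.Agent.H983R2.GC

open Finset

section PairBasic

set_option linter.unusedSectionVars false

variable {Ω V C : Type} [Fintype Ω] [Fintype V] [DecidableEq V] [DecidableEq C]

theorem pair_mem_atom (X : Ω → V → C) (S : Finset V) (ω ξ : Ω) :
    ξ ∈ atom X S ω ↔ ∀ v ∈ S, X ξ v = X ω v := by simp [atom]

theorem pair_self (X : Ω → V → C) (S : Finset V) (ω : Ω) : ω ∈ atom X S ω := by
  simp [pair_mem_atom]

theorem pair_symm (X : Ω → V → C) (S : Finset V) (ω ξ : Ω) :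
    ξ ∈ atom X S ω ↔ ω ∈ atom X S ξ := by
  rw [pair_mem_atom, pair_mem_atom]
  exact ⟨fun h v hv => (h v hv).symm, fun h v hv => (h v hv).symm⟩

theorem pair_atom_eq (X : Ω → V → C) (S : Finset V) (ω ξ : Ω) (h : ξ ∈ atom X S ω) :
    atom X S ξ = atom X S ω := by
  rw [pair_mem_atom] at h
  ext ζ
  rw [pair_mem_atom, pair_mem_atom]
  exact ⟨fun k v hv => (k v hv).trans (h v hv), fun k v hv => (k v hv).trans (h v hv).symm⟩

theorem pair_atom_mono (X : Ω → V → C) (S T : Finset V) (hST : S ⊆ T) (ω : Ω) :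
    atom X T ω ⊆ atom X S ω := by
  intro ξ h
  rw [pair_mem_atom] at *
  exact fun v hv => h v (hST hv)

theorem pair_card_pos (X : Ω → V → C) (S : Finset V) (ω : Ω) :
    0 < ((atom X S ω).card : ℝ) := by
  exact_mod_cast Finset.card_pos.mpr ⟨ω, pair_self X S ω⟩

theorem pair_cE_const (X : Ω → V → C) (S : Finset V) (f : Ω → ℝ) (ω ξ : Ω)
    (h : ξ ∈ atom X S ω) : cE X S f ξ = cE X S f ω := by
  unfold cE
  rw [pair_atom_eq X S ω ξ h]

theorem pair_cE_const' (X : Ω → V → C) (S T : Finset V) (hST : S ⊆ T) (f : Ω → ℝ) (ω ξ : Ω)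
    (h : ξ ∈ atom X T ω) : cE X S f ξ = cE X S f ω :=
  pair_cE_const X S f ω ξ (pair_atom_mono X S T hST ω h)

theorem pair_cE_pos (X : Ω → V → C) (S : Finset V) (f : Ω → ℝ) (hf : ∀ ω, 0 < f ω) (ω : Ω) :
    0 < cE X S f ω := by
  unfold cE
  exact div_pos (Finset.sum_pos (fun ξ _ => hf ξ) ⟨ω, pair_self X S ω⟩) (pair_card_pos X S ω)

theorem pair_avg (X : Ω → V → C) (S : Finset V) (f g : Ω → ℝ)
    (hg : ∀ ω ξ, ξ ∈ atom X S ω → g ξ = g ω) :
    ∑ ω, f ω * g ω = ∑ ω, cE X S f ω * g ω := by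
  classical
  have h1 : ∀ ω, cE X S f ω * g ω = ∑ ξ, if ξ ∈ atom X S ω then
      f ξ * g ξ / ((atom X S ξ).card : ℝ) else 0 := by
    intro ω
    rw [← Finset.sum_filter]
    have : univ.filter (fun ξ => ξ ∈ atom X S ω) = atom X S ω := by ext ξ; simp
    rw [this]
    unfold cE
    rw [Finset.sum_div, Finset.sum_mul]
    refine Finset.sum_congr rfl (fun ξ hξ => ?_)
    rw [pair_atom_eq X S ω ξ hξ, hg ω ξ hξ]
    ring
  rw [Finset.sum_congr rfl (fun ω _ => h1 ω), Finset.sum_comm]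
  refine Finset.sum_congr rfl (fun ξ _ => ?_)
  have h2 : ∀ ω, (if ξ ∈ atom X S ω then f ξ * g ξ / ((atom X S ξ).card : ℝ) else 0) =
      if ω ∈ atom X S ξ then f ξ * g ξ / ((atom X S ξ).card : ℝ) else 0 := by
    intro ω
    have := pair_symm X S ω ξ
    by_cases h : ξ ∈ atom X S ω
    · rw [if_pos h, if_pos (this.mp h)]
    · rw [if_neg h, if_neg (fun k => h (this.mpr k))]
  rw [Finset.sum_congr rfl (fun ω _ => h2 ω), ← Finset.sum_filter]
  have : univ.filter (fun ω => ω ∈ atom X S ξ) = atom X S ξ := by ext ω; simp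
  rw [this, Finset.sum_const, nsmul_eq_mul]
  have := pair_card_pos X S ξ
  field_simp

theorem pair_sum_cE (X : Ω → V → C) (S : Finset V) (f : Ω → ℝ) :
    ∑ ω, cE X S f ω = ∑ ω, f ω := by
  have := pair_avg X S f (fun _ => 1) (fun _ _ _ => rfl)
  simpa using this.symm

theorem pair_tower (X : Ω → V → C) (S T : Finset V) (hST : S ⊆ T) (f : Ω → ℝ) (ω : Ω) :
    cE X S (cE X T f) ω = cE X S f ω := by
  classical
  have h := pair_avg X T f (fun ξ => if ξ ∈ atom X S ω then (1 : ℝ) else 0) (by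
    intro ω' ξ h
    have h' := pair_atom_mono X S T hST ω' h
    have h3 := pair_atom_eq X S ω' ξ h'
    have h4 : ξ ∈ atom X S ω ↔ ω' ∈ atom X S ω := by
      rw [pair_symm X S ω ξ, pair_symm X S ω ω', h3]
    by_cases h5 : ξ ∈ atom X S ω
    · simp [h5, h4.mp h5]
    · have : ω' ∉ atom X S ω := fun k => h5 (h4.mpr k)
      simp [h5, this])
  simp only [mul_ite, mul_one, mul_zero, ← Finset.sum_filter] at h
  have h6 : univ.filter (fun ξ => ξ ∈ atom X S ω) = atom X S ω := by ext ξ; simp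
  rw [h6] at h
  show (∑ ξ ∈ atom X S ω, cE X T f ξ) / ((atom X S ω).card : ℝ) = _
  rw [← h]
  rfl

theorem pair_hh_mono (X : Ω → V → C) (f : Ω → ℝ) (hf : ∀ ω, 0 < f ω) (T T' : Finset V)
    (hT : T ⊆ T') : hh X f T ≤ hh X f T' := by
  have hpT := pair_cE_pos X T f hf
  have hpT' := pair_cE_pos X T' f hf
  have h1 : ∀ ω, f ω * (1 - cE X T f ω / cE X T' f ω) ≤
      f ω * Real.log (cE X T' f ω) - f ω * Real.log (cE X T f ω) := by
    intro ω
    rw [← mul_sub, ← Real.log_div (hpT' ω).ne' (hpT ω).ne']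
    apply mul_le_mul_of_nonneg_left _ (hf ω).le
    have := Real.one_sub_inv_le_log_of_pos (div_pos (hpT' ω) (hpT ω))
    rwa [inv_div] at this
  have h2 : ∑ ω, f ω * (1 - cE X T f ω / cE X T' f ω) = 0 := by
    have h3 := pair_avg X T' f (fun ω => cE X T f ω / cE X T' f ω) (by
      intro ω ξ h
      rw [pair_cE_const X T' f ω ξ h, pair_cE_const' X T T' hT f ω ξ h])
    have h4 : ∑ ω, cE X T' f ω * (cE X T f ω / cE X T' f ω) = ∑ ω, cE X T f ω :=
      Finset.sum_congr rfl (fun ω _ => by field_simp [(hpT' ω).ne'])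
    have h5 : ∑ ω, f ω * (1 - cE X T f ω / cE X T' f ω) =
        ∑ ω, f ω - ∑ ω, f ω * (cE X T f ω / cE X T' f ω) := by
      rw [← Finset.sum_sub_distrib]
      exact Finset.sum_congr rfl (fun ω _ => by ring)
    rw [h5, h3, h4, pair_sum_cE]
    ring
  have h3 := Finset.sum_le_sum (fun ω (_ : ω ∈ univ) => h1 ω)
  rw [h2, Finset.sum_sub_distrib] at h3
  unfold hh
  linarith

end PairBasic

section PairReal

theorem pair_real_aux (r : ℝ) (hr : 0 < r) (β : ℝ) (hβ : 0 < β) (hβ1 : β ≤ 1)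
    (hrβ : r * β ≤ 1) : β / 2 * (r - 1) ^ 2 ≤ r * Real.log r - r + 1 := by
  rcases le_total 1 r with h | h
  · -- r >= 1
    have h1 : (r - 1) ^ 2 / (r + 1) ≤ r * Real.log r - r + 1 := by
      rcases eq_or_lt_of_le h with h | h
      · subst h; simp
      · have h2 := Real.le_log_one_add_of_nonneg (x := r - 1) (by linarith)
        have h3 : (1 : ℝ) + (r - 1) = r := by ring
        rw [h3] at h2
        have h4 : r * (2 * (r - 1) / (r - 1 + 2)) ≤ r * Real.log r :=
          mul_le_mul_of_nonneg_left h2 hr.le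
        have h5 : r * (2 * (r - 1) / (r - 1 + 2)) - r + 1 = (r - 1) ^ 2 / (r + 1) := by
          have : r - 1 + 2 ≠ 0 := by linarith
          have h6 : r + 1 ≠ 0 := by linarith
          have h7 : r - 1 + 2 = r + 1 := by ring
          rw [h7]
          field_simp
          ring
        linarith
    refine le_trans ?_ h1
    rw [le_div_iff₀ (by linarith)]
    have : β / 2 * (r + 1) ≤ 1 := by nlinarith
    nlinarith [sq_nonneg (r - 1)]
  · -- r <= 1
    have h1 : Real.log r⁻¹ ≤ (r⁻¹ - r) / 2 := by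
      have h2 := Real.sinh_log (inv_pos.mpr hr)
      rw [inv_inv] at h2
      rw [← h2]
      exact Real.self_le_sinh_iff.mpr (Real.log_nonneg ((one_le_inv₀ hr).mpr h))
    rw [Real.log_inv] at h1
    have h2 : r * (-Real.log r) ≤ r * ((r⁻¹ - r) / 2) := mul_le_mul_of_nonneg_left h1 hr.le
    have h3 : r * ((r⁻¹ - r) / 2) = (1 - r ^ 2) / 2 := by field_simp
    rw [h3] at h2
    have h4 : β / 2 * (r - 1) ^ 2 ≤ 1 / 2 * (r - 1) ^ 2 := by
      apply mul_le_mul_of_nonneg_right _ (sq_nonneg _)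
      linarith
    nlinarith

end PairReal

section PairMain

set_option linter.unusedSectionVars false

variable {Ω V C : Type} [Fintype Ω] [Fintype V] [DecidableEq V] [Fintype C] [DecidableEq C]

theorem hh_mono (X : Ω → V → C) (f : Ω → ℝ) (hf : ∀ ω, 0 < f ω) (T T' : Finset V)
    (hT : T ⊆ T') : hh X f T ≤ hh X f T' := pair_hh_mono X f hf T T' hT

theorem pair_fiber (X : Ω → V → C) (s : Finset Ω) (u : V) (F : C → ℝ) :
    ∑ ξ ∈ s, F (X ξ u) = ∑ a : C, ((s.filter (fun ξ => X ξ u = a)).card : ℝ) * F a := by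
  rw [← Finset.sum_fiberwise s (fun ξ => X ξ u) (fun ξ => F (X ξ u))]
  refine Finset.sum_congr rfl (fun a _ => ?_)
  rw [← nsmul_eq_mul, ← Finset.sum_const]
  refine Finset.sum_congr rfl (fun ξ hξ => ?_)
  rw [(Finset.mem_filter.mp hξ).2]

theorem pair_disint (X : Ω → V → C) (T : Finset V) (u : V) (G : Ω → C → ℝ)
    (hG : ∀ ω ξ, ξ ∈ atom X T ω → ∀ a, G ξ a = G ω a) :
    ∑ ω, G ω (X ω u) = ∑ ω, (∑ a : C, (((atom X T ω).filter (fun ξ => X ξ u = a)).card : ℝ)
      * G ω a) / ((atom X T ω).card : ℝ) := by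
  rw [← pair_sum_cE X T (fun ω => G ω (X ω u))]
  refine Finset.sum_congr rfl (fun ω _ => ?_)
  unfold cE
  congr 1
  rw [← pair_fiber X (atom X T ω) u (G ω)]
  exact Finset.sum_congr rfl (fun ξ hξ => hG ω ξ hξ _)

theorem pair_atom_insert (X : Ω → V → C) (T : Finset V) (u : V) (ω : Ω) :
    atom X (insert u T) ω = (atom X T ω).filter (fun ξ => X ξ u = X ω u) := by
  ext ξ
  simp only [pair_mem_atom, Finset.mem_filter, Finset.mem_insert, forall_eq_or_imp]
  tauto

/-- The value of the increment at `v` when the colour of `v` is `b`. -/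
noncomputable def pair_psi (X : Ω → V → C) (T : Finset V) (f : Ω → ℝ) (v : V) (ω : Ω) (b : C) :
    ℝ :=
  (∑ ξ ∈ (atom X T ω).filter (fun ξ => X ξ v = b), f ξ) /
    (((atom X T ω).filter (fun ξ => X ξ v = b)).card : ℝ) - cE X T f ω

/-- The increment. -/
noncomputable def pair_phi (X : Ω → V → C) (T : Finset V) (f : Ω → ℝ) (v : V) (ω : Ω) : ℝ :=
  cE X (insert v T) f ω - cE X T f ω

/-- The influence of `u` on `v`. -/
noncomputable def pair_I (X : Ω → V → C) (T : Finset V) (u v : V) (ω : Ω) : ℝ :=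
  ∑ b : C, |(((atom X (insert u T) ω).filter (fun ξ => X ξ v = b)).card : ℝ)
          / ((atom X (insert u T) ω).card : ℝ)
        - (((atom X T ω).filter (fun ξ => X ξ v = b)).card : ℝ) / ((atom X T ω).card : ℝ)|

theorem pair_phi_psi (X : Ω → V → C) (T : Finset V) (f : Ω → ℝ) (v : V) (ω : Ω) :
    pair_phi X T f v ω = pair_psi X T f v ω (X ω v) := by
  unfold pair_phi pair_psi cE
  rw [pair_atom_insert]

theorem pair_psi_const (X : Ω → V → C) (T : Finset V) (f : Ω → ℝ) (v : V) (ω ξ : Ω)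
    (h : ξ ∈ atom X T ω) (b : C) : pair_psi X T f v ξ b = pair_psi X T f v ω b := by
  unfold pair_psi
  rw [pair_atom_eq X T ω ξ h, pair_cE_const X T f ω ξ h]

theorem pair_phi_eq (X : Ω → V → C) (T : Finset V) (f : Ω → ℝ) (v : V) (ω ξ : Ω)
    (h : ξ ∈ atom X T ω) : pair_phi X T f v ξ = pair_psi X T f v ω (X ξ v) := by
  rw [pair_phi_psi, pair_psi_const X T f v ω ξ h]

theorem pair_cE_phi (X : Ω → V → C) (T S : Finset V) (hTS : T ⊆ S) (f : Ω → ℝ) (v : V) (ω : Ω) :
    cE X S (pair_phi X T f v) ω = ∑ b : C,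
      (((atom X S ω).filter (fun ξ => X ξ v = b)).card : ℝ) / ((atom X S ω).card : ℝ) *
        pair_psi X T f v ω b := by
  unfold cE
  have h1 : ∑ ξ ∈ atom X S ω, pair_phi X T f v ξ =
      ∑ ξ ∈ atom X S ω, pair_psi X T f v ω (X ξ v) :=
    Finset.sum_congr rfl (fun ξ hξ =>
      pair_phi_eq X T f v ω ξ (pair_atom_mono X T S hTS ω hξ))
  rw [h1, pair_fiber X (atom X S ω) v (pair_psi X T f v ω), Finset.sum_div]
  exact Finset.sum_congr rfl (fun b _ => by ring)

theorem pair_cE_phi_zero (X : Ω → V → C) (T : Finset V) (f : Ω → ℝ) (v : V) (ω : Ω) :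
    cE X T (pair_phi X T f v) ω = 0 := by
  have h1 : cE X T (pair_phi X T f v) ω = cE X T (cE X (insert v T) f) ω -
      cE X T (cE X T f) ω := by
    unfold pair_phi
    show (∑ ξ ∈ atom X T ω, (cE X (insert v T) f ξ - cE X T f ξ)) / _ = _
    rw [Finset.sum_sub_distrib, sub_div]
    rfl
  rw [h1, pair_tower X T (insert v T) (Finset.subset_insert v T) f ω,
    pair_tower X T T (Finset.Subset.refl T) f ω]
  ring

theorem pair_swap (X : Ω → V → C) (T : Finset V) (f : Ω → ℝ) (u v : V) (w : Ω → ℝ)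
    (hw : ∀ ω ξ, ξ ∈ atom X T ω → w ξ = w ω) :
    ∑ ω, ∑ b : C, |(((atom X (insert u T) ω).filter (fun ξ => X ξ v = b)).card : ℝ)
          / ((atom X (insert u T) ω).card : ℝ)
        - (((atom X T ω).filter (fun ξ => X ξ v = b)).card : ℝ) / ((atom X T ω).card : ℝ)| *
        (w ω * pair_psi X T f v ω b ^ 2) =
    ∑ ω, pair_phi X T f v ω ^ 2 * w ω * pair_I X T v u ω := by
  have hcomm : ∀ ω a b, ((atom X T ω).filter (fun ξ => X ξ u = a)).filter (fun ξ => X ξ v = b) =
      ((atom X T ω).filter (fun ξ => X ξ v = b)).filter (fun ξ => X ξ u = a) := by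
    intro ω a b
    rw [Finset.filter_filter, Finset.filter_filter]
    congr 1
    ext ξ
    tauto
  -- left side
  have hL := pair_disint X T u (fun ω a => ∑ b : C,
      |((((atom X T ω).filter (fun ξ => X ξ u = a)).filter (fun ξ => X ξ v = b)).card : ℝ)
          / (((atom X T ω).filter (fun ξ => X ξ u = a)).card : ℝ)
        - (((atom X T ω).filter (fun ξ => X ξ v = b)).card : ℝ) / ((atom X T ω).card : ℝ)| *
        (w ω * pair_psi X T f v ω b ^ 2)) (by
      intro ω ξ h a
      rw [pair_atom_eq X T ω ξ h, hw ω ξ h]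
      exact Finset.sum_congr rfl (fun b _ => by rw [pair_psi_const X T f v ω ξ h]))
  have hR := pair_disint X T v (fun ω b => pair_psi X T f v ω b ^ 2 * w ω * ∑ a : C,
      |((((atom X T ω).filter (fun ξ => X ξ v = b)).filter (fun ξ => X ξ u = a)).card : ℝ)
          / (((atom X T ω).filter (fun ξ => X ξ v = b)).card : ℝ)
        - (((atom X T ω).filter (fun ξ => X ξ u = a)).card : ℝ) / ((atom X T ω).card : ℝ)|) (by
      intro ω ξ h a
      rw [pair_atom_eq X T ω ξ h, hw ω ξ h, pair_psi_const X T f v ω ξ h])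
  have e1 : ∑ ω, ∑ b : C, |(((atom X (insert u T) ω).filter (fun ξ => X ξ v = b)).card : ℝ)
          / ((atom X (insert u T) ω).card : ℝ)
        - (((atom X T ω).filter (fun ξ => X ξ v = b)).card : ℝ) / ((atom X T ω).card : ℝ)| *
        (w ω * pair_psi X T f v ω b ^ 2) = ∑ ω, (fun ω a => ∑ b : C,
      |((((atom X T ω).filter (fun ξ => X ξ u = a)).filter (fun ξ => X ξ v = b)).card : ℝ)
          / (((atom X T ω).filter (fun ξ => X ξ u = a)).card : ℝ)
        - (((atom X T ω).filter (fun ξ => X ξ v = b)).card : ℝ) / ((atom X T ω).card : ℝ)| *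
        (w ω * pair_psi X T f v ω b ^ 2)) ω (X ω u) := by
    refine Finset.sum_congr rfl (fun ω _ => ?_)
    simp only [pair_atom_insert]
  have e2 : ∑ ω, pair_phi X T f v ω ^ 2 * w ω * pair_I X T v u ω =
      ∑ ω, (fun ω b => pair_psi X T f v ω b ^ 2 * w ω * ∑ a : C,
      |((((atom X T ω).filter (fun ξ => X ξ v = b)).filter (fun ξ => X ξ u = a)).card : ℝ)
          / (((atom X T ω).filter (fun ξ => X ξ v = b)).card : ℝ)
        - (((atom X T ω).filter (fun ξ => X ξ u = a)).card : ℝ) / ((atom X T ω).card : ℝ)|)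
        ω (X ω v) := by
    refine Finset.sum_congr rfl (fun ω _ => ?_)
    simp only [pair_phi_psi, pair_I, pair_atom_insert]
  rw [e1, e2, hL, hR]
  refine Finset.sum_congr rfl (fun ω _ => ?_)
  congr 1
  simp only [Finset.mul_sum]
  rw [Finset.sum_comm]
  refine Finset.sum_congr rfl (fun b _ => Finset.sum_congr rfl (fun a _ => ?_))
  rw [hcomm ω a b]
  set A := (((atom X T ω).filter (fun ξ => X ξ u = a)).card : ℝ) with hA
  set B := (((atom X T ω).filter (fun ξ => X ξ v = b)).card : ℝ) with hB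
  set M := ((atom X T ω).card : ℝ) with hM
  set N := ((((atom X T ω).filter (fun ξ => X ξ v = b)).filter (fun ξ => X ξ u = a)).card : ℝ)
    with hN
  have hMpos : 0 < M := pair_card_pos X T ω
  have hA0 : 0 ≤ A := Nat.cast_nonneg _
  have hB0 : 0 ≤ B := Nat.cast_nonneg _
  have hNB : N ≤ B := by
    rw [hN, hB]; exact_mod_cast Finset.card_filter_le _ _
  have hN0 : 0 ≤ N := Nat.cast_nonneg _
  have hNA : N ≤ A := by
    rw [hN, ← hcomm ω a b, hA]; exact_mod_cast Finset.card_filter_le _ _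
  have k1 : A * |N / A - B / M| = |N - A * B / M| := by
    rcases hA0.eq_or_lt with h | h
    · have hN' : N = 0 := by linarith
      rw [← h, hN']; simp
    · rw [← abs_of_pos h, ← abs_mul, abs_of_pos h]
      congr 1
      field_simp
  have k2 : B * |N / B - A / M| = |N - A * B / M| := by
    rcases hB0.eq_or_lt with h | h
    · have hN' : N = 0 := by linarith
      rw [← h, hN']; simp
    · rw [← abs_of_pos h, ← abs_mul, abs_of_pos h]
      congr 1
      field_simp
  calc A * (|N / A - B / M| * (w ω * pair_psi X T f v ω b ^ 2)) =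
      (A * |N / A - B / M|) * (w ω * pair_psi X T f v ω b ^ 2) := by ring
    _ = (B * |N / B - A / M|) * (w ω * pair_psi X T f v ω b ^ 2) := by rw [k1, k2]
    _ = B * (pair_psi X T f v ω b ^ 2 * w ω * |N / B - A / M|) := by ring

theorem pair_corr (X : Ω → V → C) (T : Finset V) (f : Ω → ℝ) (u v : V) (w : Ω → ℝ)
    (hw : ∀ ω ξ, ξ ∈ atom X T ω → w ξ = w ω) (hw0 : ∀ ω, 0 ≤ w ω) :
    ∑ ω, pair_phi X T f u ω * pair_phi X T f v ω * w ω ≤
      (∑ ω, pair_phi X T f u ω ^ 2 * w ω * pair_I X T u v ω) / 2 +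
      (∑ ω, pair_phi X T f v ω ^ 2 * w ω * pair_I X T v u ω) / 2 := by
  have h1 : ∑ ω, pair_phi X T f u ω * pair_phi X T f v ω * w ω =
      ∑ ω, cE X (insert u T) (pair_phi X T f v) ω * (pair_phi X T f u ω * w ω) := by
    rw [← pair_avg X (insert u T) (pair_phi X T f v) (fun ω => pair_phi X T f u ω * w ω) ?_]
    · exact Finset.sum_congr rfl (fun ω _ => by ring)
    · intro ω ξ h
      have h' := pair_atom_mono X T (insert u T) (Finset.subset_insert u T) ω h
      rw [hw ω ξ h']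
      congr 1
      unfold pair_phi
      rw [pair_cE_const X (insert u T) f ω ξ h, pair_cE_const X T f ω ξ h']
  have h2 : ∀ ω, cE X (insert u T) (pair_phi X T f v) ω = ∑ b : C,
      ((((atom X (insert u T) ω).filter (fun ξ => X ξ v = b)).card : ℝ)
          / ((atom X (insert u T) ω).card : ℝ)
        - (((atom X T ω).filter (fun ξ => X ξ v = b)).card : ℝ) / ((atom X T ω).card : ℝ)) *
        pair_psi X T f v ω b := by
    intro ω
    have h3 := pair_cE_phi X T (insert u T) (Finset.subset_insert u T) f v ω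
    have h4 := pair_cE_phi X T T (Finset.Subset.refl T) f v ω
    rw [pair_cE_phi_zero] at h4
    rw [h3]
    have : ∀ x : ℝ, x = x - 0 := fun x => by ring
    rw [this (∑ b : C, _), h4, ← Finset.sum_sub_distrib]
    exact Finset.sum_congr rfl (fun b _ => by ring)
  rw [h1]
  have h3 : ∀ ω, cE X (insert u T) (pair_phi X T f v) ω * (pair_phi X T f u ω * w ω) ≤
      (pair_phi X T f u ω ^ 2 * w ω * pair_I X T u v ω) / 2 +
      (∑ b : C, |(((atom X (insert u T) ω).filter (fun ξ => X ξ v = b)).card : ℝ)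
          / ((atom X (insert u T) ω).card : ℝ)
        - (((atom X T ω).filter (fun ξ => X ξ v = b)).card : ℝ) / ((atom X T ω).card : ℝ)| *
        (w ω * pair_psi X T f v ω b ^ 2)) / 2 := by
    intro ω
    rw [h2 ω, pair_I, Finset.mul_sum, Finset.sum_mul, Finset.sum_div, Finset.sum_div,
      ← Finset.sum_add_distrib]
    refine Finset.sum_le_sum (fun b _ => ?_)
    set D := (((atom X (insert u T) ω).filter (fun ξ => X ξ v = b)).card : ℝ)
          / ((atom X (insert u T) ω).card : ℝ)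
        - (((atom X T ω).filter (fun ξ => X ξ v = b)).card : ℝ) / ((atom X T ω).card : ℝ)
    set x := pair_phi X T f u ω
    set y := pair_psi X T f v ω b
    have e1 : D * y * (x * w ω) ≤ |D| * (w ω * |x * y|) := by
      calc D * y * (x * w ω) ≤ |D * y * (x * w ω)| := le_abs_self _
        _ = |D| * (w ω * |x * y|) := by
          rw [abs_mul, abs_mul, abs_mul, abs_mul, abs_of_nonneg (hw0 ω)]; ring
    have e2 : |x * y| ≤ (x ^ 2 + y ^ 2) / 2 := by
      rw [abs_le]; constructor <;> nlinarith [sq_nonneg (x + y), sq_nonneg (x - y)]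
    calc D * y * (x * w ω) ≤ |D| * (w ω * |x * y|) := e1
      _ ≤ |D| * (w ω * ((x ^ 2 + y ^ 2) / 2)) := by
        apply mul_le_mul_of_nonneg_left _ (abs_nonneg _)
        exact mul_le_mul_of_nonneg_left e2 (hw0 ω)
      _ = _ := by ring
  refine (Finset.sum_le_sum (fun ω _ => h3 ω)).trans ?_
  rw [Finset.sum_add_distrib, ← Finset.sum_div, ← Finset.sum_div, pair_swap X T f u v w hw]

theorem pair_delta (X : Ω → V → C) (f : Ω → ℝ) (hf : ∀ ω, 0 < f ω) (T : Finset V) (u v : V) :
    -∑ ω, pair_phi X T f u ω * pair_phi X T f v ω * (1 / cE X T f ω) ≤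
      hh X f (insert u (insert v T)) - hh X f (insert u T) - hh X f (insert v T) + hh X f T := by
  set U := insert u T with hU
  set W := insert v T with hW
  set Z := insert u (insert v T) with hZ
  have hTZ : T ⊆ Z := (Finset.subset_insert v T).trans (Finset.subset_insert u _)
  have hWZ : W ⊆ Z := Finset.subset_insert u _
  have hUZ : U ⊆ Z := Finset.insert_subset_insert u (Finset.subset_insert v T)
  have pT := pair_cE_pos X T f hf
  have pU := pair_cE_pos X U f hf
  have pW := pair_cE_pos X W f hf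
  have pZ := pair_cE_pos X Z f hf
  have h1 : ∀ ω, f ω * (1 - cE X U f ω * cE X W f ω / (cE X Z f ω * cE X T f ω)) ≤
      f ω * Real.log (cE X Z f ω) - f ω * Real.log (cE X U f ω) - f ω * Real.log (cE X W f ω)
        + f ω * Real.log (cE X T f ω) := by
    intro ω
    have h2 := Real.one_sub_inv_le_log_of_pos
      (div_pos (mul_pos (pZ ω) (pT ω)) (mul_pos (pU ω) (pW ω)))
    rw [inv_div, Real.log_div (mul_pos (pZ ω) (pT ω)).ne' (mul_pos (pU ω) (pW ω)).ne',
      Real.log_mul (pZ ω).ne' (pT ω).ne', Real.log_mul (pU ω).ne' (pW ω).ne'] at h2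
    have h3 := mul_le_mul_of_nonneg_left h2 (hf ω).le
    linarith
  have h2 := Finset.sum_le_sum (fun ω (_ : ω ∈ univ) => h1 ω)
  have h3 : ∑ ω, f ω * (1 - cE X U f ω * cE X W f ω / (cE X Z f ω * cE X T f ω)) =
      -∑ ω, pair_phi X T f u ω * pair_phi X T f v ω * (1 / cE X T f ω) := by
    have h4 := pair_avg X Z f (fun ω => cE X U f ω * cE X W f ω / (cE X Z f ω * cE X T f ω)) (by
      intro ω ξ h
      rw [pair_cE_const X Z f ω ξ h, pair_cE_const' X T Z hTZ f ω ξ h,
        pair_cE_const' X U Z hUZ f ω ξ h, pair_cE_const' X W Z hWZ f ω ξ h])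
    have h5 : ∑ ω, cE X Z f ω * (cE X U f ω * cE X W f ω / (cE X Z f ω * cE X T f ω)) =
        ∑ ω, cE X U f ω * cE X W f ω / cE X T f ω := by
      refine Finset.sum_congr rfl (fun ω _ => ?_)
      have := (pZ ω).ne'
      have := (pT ω).ne'
      field_simp
    have h6 : ∑ ω, f ω * (1 - cE X U f ω * cE X W f ω / (cE X Z f ω * cE X T f ω)) =
        ∑ ω, f ω - ∑ ω, f ω * (cE X U f ω * cE X W f ω / (cE X Z f ω * cE X T f ω)) := by
      rw [← Finset.sum_sub_distrib]
      exact Finset.sum_congr rfl (fun ω _ => by ring)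
    have h7 : ∑ ω, pair_phi X T f u ω * pair_phi X T f v ω * (1 / cE X T f ω) =
        ∑ ω, cE X U f ω * cE X W f ω / cE X T f ω - ∑ ω, cE X U f ω - ∑ ω, cE X W f ω +
          ∑ ω, cE X T f ω := by
      rw [← Finset.sum_sub_distrib, ← Finset.sum_sub_distrib, ← Finset.sum_add_distrib]
      refine Finset.sum_congr rfl (fun ω _ => ?_)
      unfold pair_phi
      have := (pT ω).ne'
      rw [← hU, ← hW]
      field_simp
      ring
    rw [h6, h4, h5, h7, pair_sum_cE, pair_sum_cE, pair_sum_cE]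
    ring
  rw [h3, Finset.sum_add_distrib, Finset.sum_sub_distrib, Finset.sum_sub_distrib] at h2
  exact h2

theorem pair_lower (X : Ω → V → C) (β : ℝ) (hβ : 0 < β) (hβ1 : β ≤ 1)
    (hM : MargB X β) (f : Ω → ℝ) (hf : ∀ ω, 0 < f ω) (T : Finset V) (u : V) (hu : u ∉ T) :
    β / 2 * ∑ ω, pair_phi X T f u ω ^ 2 * (1 / cE X T f ω) ≤ hh X f (insert u T) - hh X f T := by
  set U := insert u T with hU
  have hTU : T ⊆ U := Finset.subset_insert u T
  have pT := pair_cE_pos X T f hf
  have pU := pair_cE_pos X U f hf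
  have h1 : hh X f U - hh X f T =
      ∑ ω, cE X T f ω * ((cE X U f ω / cE X T f ω) * Real.log (cE X U f ω / cE X T f ω)
        - cE X U f ω / cE X T f ω + 1) := by
    unfold hh
    rw [← Finset.sum_sub_distrib]
    have h2 : ∑ ω, (f ω * Real.log (cE X U f ω) - f ω * Real.log (cE X T f ω)) =
        ∑ ω, f ω * Real.log (cE X U f ω / cE X T f ω) := by
      refine Finset.sum_congr rfl (fun ω _ => ?_)
      rw [Real.log_div (pU ω).ne' (pT ω).ne']
      ring
    rw [h2, pair_avg X U f (fun ω => Real.log (cE X U f ω / cE X T f ω)) (by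
      intro ω ξ h
      rw [pair_cE_const X U f ω ξ h, pair_cE_const' X T U hTU f ω ξ h])]
    have h3 : ∑ ω, cE X T f ω * ((cE X U f ω / cE X T f ω) *
        Real.log (cE X U f ω / cE X T f ω) - cE X U f ω / cE X T f ω + 1) =
        ∑ ω, cE X U f ω * Real.log (cE X U f ω / cE X T f ω) - ∑ ω, cE X U f ω
          + ∑ ω, cE X T f ω := by
      rw [← Finset.sum_sub_distrib, ← Finset.sum_add_distrib]
      refine Finset.sum_congr rfl (fun ω _ => ?_)
      have := (pT ω).ne'
      field_simp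
    rw [h3, pair_sum_cE, pair_sum_cE]
    ring
  rw [h1, Finset.mul_sum]
  refine Finset.sum_le_sum (fun ω _ => ?_)
  have hr : 0 < cE X U f ω / cE X T f ω := div_pos (pU ω) (pT ω)
  have hrb : cE X U f ω / cE X T f ω * β ≤ 1 := by
    have h4 := hM T u ω hu
    have nU := pair_card_pos X U ω
    have nT := pair_card_pos X T ω
    have h5 : cE X U f ω * ((atom X U ω).card : ℝ) ≤ cE X T f ω * ((atom X T ω).card : ℝ) := by
      unfold cE
      rw [div_mul_cancel₀ _ nU.ne', div_mul_cancel₀ _ nT.ne']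
      exact Finset.sum_le_sum_of_subset_of_nonneg (pair_atom_mono X T U hTU ω)
        (fun ξ _ _ => (hf ξ).le)
    have h6 : cE X U f ω * (β * ((atom X T ω).card : ℝ)) ≤
        cE X T f ω * ((atom X T ω).card : ℝ) :=
      (mul_le_mul_of_nonneg_left h4 (pU ω).le).trans h5
    have h7 : cE X U f ω * β ≤ cE X T f ω := by
      have : (cE X U f ω * β) * ((atom X T ω).card : ℝ) ≤
          cE X T f ω * ((atom X T ω).card : ℝ) := by linarith
      exact le_of_mul_le_mul_right this nT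
    rw [div_mul_eq_mul_div, div_le_one (pT ω)]
    exact h7
  have h8 := pair_real_aux _ hr β hβ hβ1 hrb
  have h9 := mul_le_mul_of_nonneg_left h8 (pT ω).le
  refine le_trans (le_of_eq ?_) h9
  unfold pair_phi
  rw [← hU]
  have := (pT ω).ne'
  field_simp

theorem pair_ineq (X : Ω → V → C) (η β : ℝ) (hη : 0 ≤ η) (hβ : 0 < β) (hβ1 : β ≤ 1)
    (hI : InfB X η) (hM : MargB X β) (f : Ω → ℝ) (hf : ∀ ω, 0 < f ω) (T : Finset V) :
    -(2 * η / β) * ∑ u ∈ univ.filter (fun u => u ∉ T), (hh X f (insert u T) - hh X f T) ≤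
      ∑ u ∈ univ.filter (fun u => u ∉ T), ∑ v ∈ univ.filter (fun v => v ∉ T ∧ v ≠ u),
        (hh X f (insert u (insert v T)) - hh X f (insert u T) - hh X f (insert v T)
          + hh X f T) := by
  have pT := pair_cE_pos X T f hf
  set w : Ω → ℝ := fun ω => 1 / cE X T f ω with hwdef
  have hw0 : ∀ ω, 0 ≤ w ω := fun ω => (one_div_pos.mpr (pT ω)).le
  have hw : ∀ ω ξ, ξ ∈ atom X T ω → w ξ = w ω := by
    intro ω ξ h
    simp only [hwdef]
    rw [pair_cE_const X T f ω ξ h]
  set S : V → ℝ := fun u => ∑ ω, pair_phi X T f u ω ^ 2 * w ω with hS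
  -- step 1
  have h1 : ∀ u ∈ univ.filter (fun u => u ∉ T),
      (β / 2) * S u ≤ hh X f (insert u T) - hh X f T := by
    intro u hu
    simp only [Finset.mem_filter, Finset.mem_univ, true_and] at hu
    exact pair_lower X β hβ hβ1 hM f hf T u hu
  have h1' := Finset.sum_le_sum h1
  rw [← Finset.mul_sum] at h1'
  -- step 2
  have hsum : ∀ u ∈ univ.filter (fun u => u ∉ T),
      ∑ v ∈ univ.filter (fun v => v ∉ T ∧ v ≠ u),
        ∑ ω, pair_phi X T f u ω ^ 2 * w ω * pair_I X T u v ω ≤ η * S u := by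
    intro u hu
    simp only [Finset.mem_filter, Finset.mem_univ, true_and] at hu
    rw [Finset.sum_comm, hS]
    simp only
    rw [Finset.mul_sum]
    refine Finset.sum_le_sum (fun ω _ => ?_)
    rw [← Finset.mul_sum]
    have h3 : ∑ v ∈ univ.filter (fun v => v ∉ T ∧ v ≠ u), pair_I X T u v ω ≤ η := hI T u ω hu
    have h4 : 0 ≤ pair_phi X T f u ω ^ 2 * w ω := mul_nonneg (sq_nonneg _) (hw0 ω)
    calc _ ≤ pair_phi X T f u ω ^ 2 * w ω * η := mul_le_mul_of_nonneg_left h3 h4
      _ = _ := by ring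
  have hcomm : ∑ u ∈ univ.filter (fun u => u ∉ T), ∑ v ∈ univ.filter (fun v => v ∉ T ∧ v ≠ u),
      ∑ ω, pair_phi X T f v ω ^ 2 * w ω * pair_I X T v u ω =
      ∑ u ∈ univ.filter (fun u => u ∉ T), ∑ v ∈ univ.filter (fun v => v ∉ T ∧ v ≠ u),
      ∑ ω, pair_phi X T f u ω ^ 2 * w ω * pair_I X T u v ω := by
    rw [Finset.sum_comm' (s' := fun v => univ.filter (fun u => u ∉ T ∧ u ≠ v))
      (t' := univ.filter (fun v => v ∉ T))]
    intro u v
    simp only [Finset.mem_filter, Finset.mem_univ, true_and]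
    constructor
    · rintro ⟨a, b, c⟩; exact ⟨⟨a, fun h => c h.symm⟩, b⟩
    · rintro ⟨⟨a, c⟩, b⟩; exact ⟨a, b, fun h => c h.symm⟩
  have h5 : ∑ u ∈ univ.filter (fun u => u ∉ T), ∑ v ∈ univ.filter (fun v => v ∉ T ∧ v ≠ u),
      ∑ ω, pair_phi X T f u ω * pair_phi X T f v ω * w ω ≤
      η * ∑ u ∈ univ.filter (fun u => u ∉ T), S u := by
    have h6 : ∑ u ∈ univ.filter (fun u => u ∉ T), ∑ v ∈ univ.filter (fun v => v ∉ T ∧ v ≠ u),
      ∑ ω, pair_phi X T f u ω * pair_phi X T f v ω * w ω ≤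
      ∑ u ∈ univ.filter (fun u => u ∉ T), ∑ v ∈ univ.filter (fun v => v ∉ T ∧ v ≠ u),
      ((∑ ω, pair_phi X T f u ω ^ 2 * w ω * pair_I X T u v ω) / 2 +
      (∑ ω, pair_phi X T f v ω ^ 2 * w ω * pair_I X T v u ω) / 2) :=
      Finset.sum_le_sum (fun u _ => Finset.sum_le_sum (fun v _ => pair_corr X T f u v w hw hw0))
    refine h6.trans ?_
    simp only [Finset.sum_add_distrib, ← Finset.sum_div]
    rw [hcomm, ← add_div, ← two_mul, mul_div_cancel_left₀ _ (two_ne_zero), Finset.mul_sum]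
    exact Finset.sum_le_sum hsum
  -- conclusion
  have h7 : -∑ u ∈ univ.filter (fun u => u ∉ T), ∑ v ∈ univ.filter (fun v => v ∉ T ∧ v ≠ u),
      ∑ ω, pair_phi X T f u ω * pair_phi X T f v ω * w ω ≤
      ∑ u ∈ univ.filter (fun u => u ∉ T), ∑ v ∈ univ.filter (fun v => v ∉ T ∧ v ≠ u),
        (hh X f (insert u (insert v T)) - hh X f (insert u T) - hh X f (insert v T)
          + hh X f T) := by
    rw [← Finset.sum_neg_distrib]
    refine Finset.sum_le_sum (fun u _ => ?_)
    rw [← Finset.sum_neg_distrib]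
    exact Finset.sum_le_sum (fun v _ => pair_delta X f hf T u v)
  refine le_trans ?_ h7
  have h8 : η * ∑ u ∈ univ.filter (fun u => u ∉ T), S u ≤
      2 * η / β * ∑ u ∈ univ.filter (fun u => u ∉ T), (hh X f (insert u T) - hh X f T) := by
    have h9 : (2 * η / β) * ((β / 2) * ∑ u ∈ univ.filter (fun u => u ∉ T), S u) ≤
        (2 * η / β) * ∑ u ∈ univ.filter (fun u => u ∉ T), (hh X f (insert u T) - hh X f T) :=
      mul_le_mul_of_nonneg_left h1' (by positivity)
    have h10 : (2 * η / β) * ((β / 2) * ∑ u ∈ univ.filter (fun u => u ∉ T), S u) =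
        η * ∑ u ∈ univ.filter (fun u => u ∉ T), S u := by
      field_simp
    rw [h10] at h9
    exact h9
  linarith

end PairMain

end Pool.Agent.H983R2.GC
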