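import Pool.Agent.H983R2.GC.Defs

set_option autoImplicit false

namespace Pool.Agent.H983R2.GC

open Finset

section Russo

set_option linter.unusedSectionVars false

variable {V : Type} [Fintype V] [DecidableEq V]

/-- Average of a set function over a Bernoulli subset. -/
noncomputable def russo_E (k : Finset V → ℝ) (t : ℝ) : ℝ :=
  ∑ T : Finset V, t ^ T.card * (1 - t) ^ (Fintype.card V - T.card) * k T

/-- Sum of the increments of a set function. -/
noncomputable def russo_N (k : Finset V → ℝ) (T : Finset V) : ℝ :=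
  ∑ v ∈ univ.filter (fun v => v ∉ T), (k (insert v T) - k T)

/-- Derivative of `russo_E`. -/
noncomputable def russo_D (k : Finset V → ℝ) (t : ℝ) : ℝ :=
  ∑ T : Finset V, ((T.card : ℝ) * t ^ (T.card - 1) * (1 - t) ^ (Fintype.card V - T.card)
    - t ^ T.card * (((Fintype.card V - T.card : ℕ) : ℝ) *
      (1 - t) ^ (Fintype.card V - T.card - 1))) * k T

theorem russo_hasDeriv (k : Finset V → ℝ) (t : ℝ) :
    HasDerivAt (russo_E k) (russo_D k t) t := by
  unfold russo_E russo_D
  apply HasDerivAt.fun_sum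
  intro T _
  have h1 : HasDerivAt (fun x : ℝ => x ^ T.card) ((T.card : ℝ) * t ^ (T.card - 1)) t :=
    hasDerivAt_pow _ _
  have h2 : HasDerivAt (fun x : ℝ => (1 - x) ^ (Fintype.card V - T.card))
      (((Fintype.card V - T.card : ℕ) : ℝ) * (1 - t) ^ (Fintype.card V - T.card - 1) * (-1)) t := by
    have h3 : HasDerivAt (fun x : ℝ => 1 - x) (-1) t := by
      simpa using (hasDerivAt_id t).const_sub 1
    exact h3.pow _
  have h4 := (h1.mul h2).mul_const (k T)
  refine h4.congr_deriv ?_
  ring

theorem russo_reindex (t : ℝ) (k : Finset V → ℝ) :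
    ∑ T : Finset V, ∑ _v ∈ T, t ^ (T.card - 1) * (1 - t) ^ (Fintype.card V - T.card + 1) * k T =
    ∑ T : Finset V, ∑ v ∈ univ.filter (fun v => v ∉ T),
      t ^ T.card * (1 - t) ^ (Fintype.card V - T.card) * k (insert v T) := by
  rw [Finset.sum_sigma', Finset.sum_sigma']
  refine Finset.sum_bij' (fun p _ => ⟨p.1.erase p.2, p.2⟩) (fun p _ => ⟨insert p.2 p.1, p.2⟩)
    ?_ ?_ ?_ ?_ ?_
  · rintro ⟨T, v⟩ h
    simp
  · rintro ⟨T, v⟩ h
    simp
  · rintro ⟨T, v⟩ h
    simp only [Finset.mem_sigma, Finset.mem_univ, true_and] at h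
    simp [Finset.insert_erase h]
  · rintro ⟨T, v⟩ h
    simp only [Finset.mem_sigma, Finset.mem_univ, true_and, Finset.mem_filter] at h
    simp [Finset.erase_insert h]
  · rintro ⟨T, v⟩ h
    simp only [Finset.mem_sigma, Finset.mem_univ, true_and] at h
    have hc : (T.erase v).card = T.card - 1 := Finset.card_erase_of_mem h
    have hp : 0 < T.card := Finset.card_pos.mpr ⟨v, h⟩
    have hle : T.card ≤ Fintype.card V := Finset.card_le_univ T
    simp only [hc, Finset.insert_erase h]
    have : Fintype.card V - (T.card - 1) = Fintype.card V - T.card + 1 := by omega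
    rw [this]

theorem russo_formula (k : Finset V → ℝ) (t : ℝ) :
    (1 - t) * russo_D k t = russo_E (russo_N k) t := by
  unfold russo_D russo_E russo_N
  have h1 : ∀ T : Finset V, (1 - t) * (((T.card : ℝ) * t ^ (T.card - 1) *
      (1 - t) ^ (Fintype.card V - T.card)
      - t ^ T.card * (((Fintype.card V - T.card : ℕ) : ℝ) *
      (1 - t) ^ (Fintype.card V - T.card - 1))) * k T) =
      (∑ _v ∈ T, t ^ (T.card - 1) * (1 - t) ^ (Fintype.card V - T.card + 1) * k T) -
      ((Fintype.card V - T.card : ℕ) : ℝ) *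
        (t ^ T.card * (1 - t) ^ (Fintype.card V - T.card) * k T) := by
    intro T
    rw [Finset.sum_const, nsmul_eq_mul]
    rcases Nat.eq_zero_or_pos (Fintype.card V - T.card) with h0 | h0
    · rw [h0]; simp; ring
    · obtain ⟨m, hm⟩ := Nat.exists_eq_succ_of_ne_zero h0.ne'
      rw [hm]
      simp only [Nat.succ_eq_add_one, Nat.add_sub_cancel]
      ring
  rw [Finset.mul_sum, Finset.sum_congr rfl (fun T _ => h1 T), Finset.sum_sub_distrib,
    russo_reindex, ← Finset.sum_sub_distrib]
  refine Finset.sum_congr rfl (fun T _ => ?_)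
  have hcard : (univ.filter (fun v => v ∉ T)).card = Fintype.card V - T.card := by
    rw [← Finset.card_compl]
    congr 1
    ext v; simp
  rw [Finset.sum_sub_distrib, Finset.sum_const, hcard, nsmul_eq_mul, mul_sub, Finset.mul_sum]
  ring

theorem russo_E_nonneg (k : Finset V → ℝ) (hk : ∀ T, 0 ≤ k T) (t : ℝ) (h0 : 0 ≤ t) (h1 : t ≤ 1) :
    0 ≤ russo_E k t := by
  unfold russo_E
  refine Finset.sum_nonneg (fun T _ => ?_)
  have := hk T
  have h2 : 0 ≤ 1 - t := by linarith
  positivity

theorem russo_E_zero (k : Finset V → ℝ) : russo_E k 0 = k ∅ := by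
  unfold russo_E
  rw [Finset.sum_eq_single ∅]
  · simp
  · intro T _ hT
    have : T.card ≠ 0 := by rwa [Ne, Finset.card_eq_zero]
    simp [this]
  · simp

theorem russo_E_one (k : Finset V → ℝ) : russo_E k 1 = k univ := by
  unfold russo_E
  rw [Finset.sum_eq_single univ]
  · simp
  · intro T _ hT
    have h1 : T.card < Fintype.card V := by
      rw [Finset.card_lt_iff_ne_univ]; exact hT
    have : Fintype.card V - T.card ≠ 0 := by omega
    simp [this]
  · simp

theorem russo_NN (h : Finset V → ℝ) (c : ℕ)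
    (hpair : ∀ T : Finset V,
      -(c : ℝ) * ∑ u ∈ univ.filter (fun u => u ∉ T), (h (insert u T) - h T) ≤
      ∑ u ∈ univ.filter (fun u => u ∉ T), ∑ v ∈ univ.filter (fun v => v ∉ T ∧ v ≠ u),
        (h (insert u (insert v T)) - h (insert u T) - h (insert v T) + h T))
    (T : Finset V) : -((c : ℝ) + 1) * russo_N h T ≤ russo_N (russo_N h) T := by
  have key : russo_N (russo_N h) T = (∑ u ∈ univ.filter (fun u => u ∉ T),
      ∑ v ∈ univ.filter (fun v => v ∉ T ∧ v ≠ u),
        (h (insert u (insert v T)) - h (insert u T) - h (insert v T) + h T)) - russo_N h T := by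
    unfold russo_N
    rw [← Finset.sum_sub_distrib]
    refine Finset.sum_congr rfl (fun u hu => ?_)
    simp only [Finset.mem_filter, Finset.mem_univ, true_and] at hu
    have e1 : univ.filter (fun v => v ∉ insert u T) = univ.filter (fun v => v ∉ T ∧ v ≠ u) := by
      ext v
      simp only [Finset.mem_filter, Finset.mem_univ, true_and, Finset.mem_insert, not_or]
      tauto
    have e2 : univ.filter (fun v => v ∉ T) = insert u (univ.filter (fun v => v ∉ T ∧ v ≠ u)) := by
      ext v
      simp only [Finset.mem_filter, Finset.mem_univ, true_and, Finset.mem_insert]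
      by_cases hv : v = u
      · subst hv; simp [hu]
      · simp [hv]
    rw [e1, e2, Finset.sum_insert (by simp)]
    have e3 : ∑ v ∈ univ.filter (fun v => v ∉ T ∧ v ≠ u),
        (h (insert u (insert v T)) - h (insert u T) - h (insert v T) + h T) =
        ∑ v ∈ univ.filter (fun v => v ∉ T ∧ v ≠ u), (h (insert v (insert u T)) - h (insert u T))
        - ∑ v ∈ univ.filter (fun v => v ∉ T ∧ v ≠ u), (h (insert v T) - h T) := by
      rw [← Finset.sum_sub_distrib]
      refine Finset.sum_congr rfl (fun v _ => ?_)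
      rw [Finset.insert_comm u v T]
      ring
    rw [e3]
    ring
  rw [key]
  have := hpair T
  unfold russo_N at *
  linarith

theorem russo_bound (h : Finset V → ℝ) (c : ℕ)
    (hmono : ∀ T u, u ∉ T → h T ≤ h (insert u T))
    (hpair : ∀ T : Finset V,
      -(c : ℝ) * ∑ u ∈ univ.filter (fun u => u ∉ T), (h (insert u T) - h T) ≤
      ∑ u ∈ univ.filter (fun u => u ∉ T), ∑ v ∈ univ.filter (fun v => v ∉ T ∧ v ≠ u),
        (h (insert u (insert v T)) - h (insert u T) - h (insert v T) + h T))
    (θ : ℝ) (h0 : 0 < θ) (h1 : θ < 1) :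
    θ ^ (c + 1) * (h univ - h ∅) ≤
      ∑ S : Finset V, θ ^ S.card * (1 - θ) ^ (Fintype.card V - S.card) *
        (h univ - h (univ \ S)) := by
  classical
  -- the right hand side
  have hR : ∑ S : Finset V, θ ^ S.card * (1 - θ) ^ (Fintype.card V - S.card) *
        (h univ - h (univ \ S)) = h univ - russo_E h (1 - θ) := by
    have e1 : ∑ S : Finset V, θ ^ S.card * (1 - θ) ^ (Fintype.card V - S.card) * h univ =
        h univ := by
      rw [← Finset.sum_mul, Fintype.sum_pow_mul_eq_add_pow]
      simp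
    have e2 : ∑ S : Finset V, θ ^ S.card * (1 - θ) ^ (Fintype.card V - S.card) * h (univ \ S) =
        russo_E h (1 - θ) := by
      unfold russo_E
      refine Finset.sum_bij' (fun S _ => univ \ S) (fun S _ => univ \ S) ?_ ?_ ?_ ?_ ?_
      · simp
      · simp
      · intro S _; simp
      · intro S _; simp
      · intro S _
        have hle : S.card ≤ Fintype.card V := Finset.card_le_univ S
        have hc : (univ \ S).card = Fintype.card V - S.card := by
          rw [Finset.card_sdiff_of_subset (Finset.subset_univ S)]; simp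
        rw [hc]
        have : Fintype.card V - (Fintype.card V - S.card) = S.card := by omega
        rw [this]
        ring
    calc ∑ S : Finset V, θ ^ S.card * (1 - θ) ^ (Fintype.card V - S.card) *
        (h univ - h (univ \ S)) = ∑ S : Finset V, (θ ^ S.card * (1 - θ) ^ (Fintype.card V - S.card)
          * h univ - θ ^ S.card * (1 - θ) ^ (Fintype.card V - S.card) * h (univ \ S)) := by
          refine Finset.sum_congr rfl (fun S _ => by ring)
      _ = _ := by rw [Finset.sum_sub_distrib, e1, e2]
  rw [hR]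
  set g := russo_E h with hg
  set G1 := russo_E (russo_N h) with hG1
  have hN0 : ∀ T, 0 ≤ russo_N h T := by
    intro T
    unfold russo_N
    refine Finset.sum_nonneg (fun v hv => ?_)
    simp only [Finset.mem_filter, Finset.mem_univ, true_and] at hv
    linarith [hmono T v hv]
  have hg' : ∀ t, HasDerivAt g (russo_D h t) t := russo_hasDeriv h
  have hG' : ∀ t, HasDerivAt G1 (russo_D (russo_N h) t) t := russo_hasDeriv _
  have hgf : ∀ t, (1 - t) * russo_D h t = G1 t := russo_formula h
  have hGf : ∀ t, 0 ≤ t → t ≤ 1 → -((c : ℝ) + 1) * G1 t ≤ (1 - t) * russo_D (russo_N h) t := by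
    intro t ht0 ht1
    rw [russo_formula]
    have e : russo_E (russo_N (russo_N h)) t - (-((c : ℝ) + 1) * G1 t) =
        russo_E (fun T => russo_N (russo_N h) T - (-((c : ℝ) + 1) * russo_N h T)) t := by
      rw [hG1]
      unfold russo_E
      rw [Finset.mul_sum, ← Finset.sum_sub_distrib]
      refine Finset.sum_congr rfl (fun T _ => by ring)
    have e2 := russo_E_nonneg (fun T => russo_N (russo_N h) T - (-((c : ℝ) + 1) * russo_N h T))
      (fun T => by linarith [russo_NN h c hpair T]) t ht0 ht1
    linarith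
  -- Q nondecreasing
  set u := 1 - θ with hu
  have hu0 : 0 < u := by linarith
  have hu1 : u < 1 := by linarith
  have hQmono : MonotoneOn (fun t => G1 t / (1 - t) ^ (c + 1)) (Set.Ico (0 : ℝ) 1) := by
    have hd : ∀ t ∈ Set.Ico (0 : ℝ) 1, HasDerivAt (fun t => G1 t / (1 - t) ^ (c + 1))
        ((russo_D (russo_N h) t * (1 - t) ^ (c + 1) -
          G1 t * (((c + 1 : ℕ) : ℝ) * (1 - t) ^ c * (-1))) / ((1 - t) ^ (c + 1)) ^ 2) t := by
      intro t ht
      have h3 : HasDerivAt (fun x : ℝ => 1 - x) (-1) t := by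
        simpa using (hasDerivAt_id t).const_sub 1
      have h4 : HasDerivAt (fun x : ℝ => (1 - x) ^ (c + 1))
          (((c + 1 : ℕ) : ℝ) * (1 - t) ^ c * (-1)) t := by
        exact h3.pow (c + 1)
      exact (hG' t).div h4 (pow_ne_zero _ (by linarith [ht.2]))
    refine monotoneOn_of_deriv_nonneg (convex_Ico 0 1) ?_ ?_ ?_
    · exact fun t ht => (hd t ht).continuousAt.continuousWithinAt
    · rw [interior_Ico]
      exact fun t ht => (hd t ⟨ht.1.le, ht.2⟩).differentiableAt.differentiableWithinAt
    · rw [interior_Ico]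
      intro t ht
      rw [(hd t ⟨ht.1.le, ht.2⟩).deriv]
      apply div_nonneg _ (sq_nonneg _)
      have h5 := hGf t ht.1.le ht.2.le
      have h6 : 0 ≤ (1 - t) ^ c := pow_nonneg (by linarith [ht.2]) _
      have h7 : russo_D (russo_N h) t * (1 - t) ^ (c + 1) -
          G1 t * (((c + 1 : ℕ) : ℝ) * (1 - t) ^ c * (-1)) =
          (1 - t) ^ c * ((1 - t) * russo_D (russo_N h) t + ((c : ℝ) + 1) * G1 t) := by
        push_cast
        ring
      rw [h7]
      exact mul_nonneg h6 (by linarith)
  set q := G1 u / (1 - u) ^ (c + 1) with hq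
  set A : ℝ → ℝ := fun t => g t + q / ((c : ℝ) + 1) * (1 - t) ^ (c + 1) with hA
  have hc1 : ((c : ℝ) + 1) ≠ 0 := by positivity
  have hA' : ∀ t, HasDerivAt A (russo_D h t - q * (1 - t) ^ c) t := by
    intro t
    have h3 : HasDerivAt (fun x : ℝ => 1 - x) (-1) t := by
      simpa using (hasDerivAt_id t).const_sub 1
    have h4 : HasDerivAt (fun x : ℝ => (1 - x) ^ (c + 1))
        (((c + 1 : ℕ) : ℝ) * (1 - t) ^ c * (-1)) t := by
      exact h3.pow (c + 1)
    refine ((hg' t).add (h4.const_mul (q / ((c : ℝ) + 1)))).congr_deriv ?_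
    push_cast
    field_simp
    ring
  have hAval : ∀ t, t < 1 → russo_D h t - q * (1 - t) ^ c =
      (G1 t / (1 - t) ^ (c + 1) - q) * (1 - t) ^ c := by
    intro t ht
    have h2 : (1 - t) ≠ 0 := by linarith
    have h3 := hgf t
    have : russo_D h t = G1 t / (1 - t) := by rw [← h3]; field_simp
    rw [this, pow_succ]
    field_simp
  have hcont : Continuous A := by
    rw [continuous_iff_continuousAt]
    exact fun t => (hA' t).continuousAt
  have hA1 : A u ≤ A 1 := by
    have hm : MonotoneOn A (Set.Icc u 1) := by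
      refine monotoneOn_of_deriv_nonneg (convex_Icc u 1) hcont.continuousOn ?_ ?_
      · exact fun t _ => (hA' t).differentiableAt.differentiableWithinAt
      · rw [interior_Icc]
        intro t ht
        rw [(hA' t).deriv, hAval t ht.2]
        refine mul_nonneg ?_ (pow_nonneg (by linarith [ht.2]) _)
        have := hQmono (a := u) (b := t) ⟨hu0.le, hu1⟩ ⟨by linarith [ht.1], ht.2⟩ ht.1.le
        simp only at this
        linarith
    exact hm ⟨le_rfl, hu1.le⟩ ⟨hu1.le, le_rfl⟩ hu1.le
  have hA0 : A u ≤ A 0 := by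
    have hm : AntitoneOn A (Set.Icc 0 u) := by
      refine antitoneOn_of_deriv_nonpos (convex_Icc 0 u) hcont.continuousOn ?_ ?_
      · exact fun t _ => (hA' t).differentiableAt.differentiableWithinAt
      · rw [interior_Icc]
        intro t ht
        have ht1 : t < 1 := ht.2.trans hu1
        rw [(hA' t).deriv, hAval t ht1]
        refine mul_nonpos_of_nonpos_of_nonneg ?_ (pow_nonneg (by linarith) _)
        have := hQmono (a := t) (b := u) ⟨ht.1.le, ht1⟩ ⟨hu0.le, hu1⟩ ht.2.le
        simp only at this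
        linarith
    exact hm ⟨le_rfl, hu0.le⟩ ⟨hu0.le, le_rfl⟩ hu0.le
  have hg1 : g 1 = h univ := russo_E_one h
  have hg0 : g 0 = h ∅ := russo_E_zero h
  have e1 : A 1 = h univ := by simp [hA, hg1]
  have e0 : A 0 = h ∅ + q / ((c : ℝ) + 1) := by simp [hA, hg0]
  have eu : A u = g u + q / ((c : ℝ) + 1) * θ ^ (c + 1) := by
    simp only [hA]
    rw [hu]
    ring_nf
  rw [e1, eu] at hA1
  rw [e0, eu] at hA0
  set q' := q / ((c : ℝ) + 1)
  set p := θ ^ (c + 1) with hp
  have hp0 : 0 < p := pow_pos h0 _
  have hp1 : p < 1 := pow_lt_one₀ h0.le h1 (by omega)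
  -- D1 >= p q', q' (1-p) >= D0
  have h2 : q' * p ≤ h univ - g u := by linarith
  have h3 : g u - h ∅ ≤ q' * (1 - p) := by linarith
  nlinarith [mul_le_mul_of_nonneg_left h3 hp0.le, mul_le_mul_of_nonneg_right h2 (by linarith : 0 ≤ 1 - p)]

end Russo

end Pool.Agent.H983R2.GC
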